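import Pool.Agent.H19.TM.Stm4

/-!
# Project TM3, module J2: regularity of the function `j` on bounded intervals
-/

set_option autoImplicit false

namespace Pool.Agent.H17.TM

open Pool.Agent.H19.TM

theorem t_J2 : S_J2 := by
  intro j hj K
  obtain ⟨hc, h0, h1, hd⟩ := hj
  set c : ℝ := Real.exp (-(4 * Real.eulerMascheroniConstant)) / 24 with hcdef
  have hcpos : 0 ≤ c := by positivity
  set K1 : ℝ := max K 1 with hK1
  have hK1' : 1 ≤ K1 := le_max_right _ _
  have hKK : K ≤ K1 := le_max_left _ _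
  -- boundedness
  obtain ⟨C0, hC0⟩ : ∃ C0 : ℝ, ∀ u : ℝ, u ≤ K1 → |j u| ≤ C0 := by
    obtain ⟨B, hB⟩ :=
      (isCompact_Icc (a := (0 : ℝ)) (b := K1)).exists_bound_of_continuousOn hc.continuousOn
    refine ⟨B, fun u hu => ?_⟩
    by_cases hu0 : 0 ≤ u
    · exact hB u ⟨hu0, hu⟩
    · push Not at hu0
      rw [h0 u hu0.le, abs_zero]
      exact (norm_nonneg _).trans (hB 0 ⟨le_rfl, by linarith⟩)
  have hC00 : 0 ≤ C0 := (abs_nonneg _).trans (hC0 0 (by linarith))
  obtain ⟨g, hg⟩ : ∃ g : ℝ → ℝ, ∀ u, g u = 4 * (j u - j (u - 1)) / u := ⟨_, fun u => rfl⟩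
  have hdg : ∀ u : ℝ, 0 < u → HasDerivAt j (g u) u := by
    intro u hu
    rw [hg u]
    exact hd u hu
  have hg1 : ∀ u : ℝ, 0 < u → u ≤ 1 → g u = 4 * c * u ^ 3 := by
    intro u hu hu1
    rw [hg u, h1 u hu.le hu1, h0 (u - 1) (by linarith)]
    field_simp
    ring
  set C1 : ℝ := 4 * c + 8 * C0 with hC1
  have hC10 : 0 ≤ C1 := by positivity
  have hN : ∀ u : ℝ, u ≤ K1 → |j u - j (u - 1)| ≤ 2 * C0 := by
    intro u hu
    have h3 : |j u - j (u - 1)| ≤ |j u| + |j (u - 1)| := by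
      simpa [Real.norm_eq_abs] using norm_sub_le (j u) (j (u - 1))
    have h4 := hC0 u hu
    have h5 := hC0 (u - 1) (by linarith)
    linarith
  have hgb : ∀ u : ℝ, 0 < u → u ≤ K1 → |g u| ≤ C1 := by
    intro u hu huK
    rcases le_total u 1 with hu1 | hu1
    · rw [hg1 u hu hu1, abs_of_nonneg (by positivity)]
      have h3 : u ^ 3 ≤ 1 := pow_le_one₀ hu.le hu1
      have h4 : 4 * c * u ^ 3 ≤ 4 * c * 1 := mul_le_mul_of_nonneg_left h3 (by positivity)
      linarith
    · rw [hg u, abs_div, abs_of_pos hu, div_le_iff₀ hu, abs_mul,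
        abs_of_pos (by norm_num : (0 : ℝ) < 4)]
      have h3 := hN u huK
      have h4 : C1 * 1 ≤ C1 * u := mul_le_mul_of_nonneg_left hu1 hC10
      linarith
  have hmv : ∀ u v : ℝ, 0 ≤ u → u < v → v ≤ K1 →
      ∃ ξ : ℝ, u < ξ ∧ ξ < v ∧ j v - j u = g ξ * (v - u) := by
    intro u v hu huv hv
    obtain ⟨ξ, hξ, he⟩ := exists_hasDerivAt_eq_slope j g huv hc.continuousOn
      (fun x hx => hdg x (lt_of_le_of_lt hu hx.1))
    refine ⟨ξ, hξ.1, hξ.2, ?_⟩
    rw [he, div_mul_cancel₀]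
    exact sub_ne_zero.mpr huv.ne'
  have hlip : ∀ u v : ℝ, u ≤ v → v ≤ K1 → |j v - j u| ≤ C1 * (v - u) := by
    intro u v huv hv
    rcases le_or_gt v 0 with hv0 | hv0
    · rw [h0 v hv0, h0 u (huv.trans hv0), sub_zero, abs_zero]
      exact mul_nonneg hC10 (by linarith)
    · have e : j u = j (max u 0) := by
        rcases le_total u 0 with h | h
        · rw [max_eq_right h, h0 u h, h0 0 le_rfl]
        · rw [max_eq_left h]
      rcases eq_or_lt_of_le (max_le huv hv0.le) with h | h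
      · rw [e, h, sub_self, abs_zero]
        exact mul_nonneg hC10 (by linarith)
      · obtain ⟨ξ, h2, h3, h4⟩ := hmv (max u 0) v (le_max_right _ _) h hv
        have h7 : 0 < v - max u 0 := by linarith
        rw [e, h4, abs_mul, abs_of_pos h7]
        have h5 := hgb ξ (lt_of_le_of_lt (le_max_right _ _) h2) (by linarith)
        have h6 : v - max u 0 ≤ v - u := by linarith [le_max_left u 0]
        calc |g ξ| * (v - max u 0) ≤ C1 * (v - max u 0) := mul_le_mul_of_nonneg_right h5 h7.le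
          _ ≤ C1 * (v - u) := mul_le_mul_of_nonneg_left h6 hC10
  set L : ℝ := 12 * c + 16 * (C1 + C0) with hL
  have hL0 : 0 ≤ L := by positivity
  have hgl : ∀ ξ u : ℝ, 0 < ξ → u ≤ 2 * ξ → ξ ≤ u → u ≤ K1 → |g ξ - g u| ≤ L * (u - ξ) := by
    intro ξ u hξ h2 h3 h4
    have hu : 0 < u := lt_of_lt_of_le hξ h3
    have hd0 : 0 ≤ u - ξ := by linarith
    rcases le_total u 1 with hu1 | hu1
    · rw [hg1 ξ hξ (h3.trans hu1), hg1 u hu hu1]
      have e : 4 * c * ξ ^ 3 - 4 * c * u ^ 3 = -(4 * c * (u ^ 2 + u * ξ + ξ ^ 2) * (u - ξ)) := by ring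
      rw [e, abs_neg, abs_of_nonneg (by positivity)]
      refine mul_le_mul_of_nonneg_right ?_ hd0
      have h5 : u ^ 2 + u * ξ + ξ ^ 2 ≤ 3 := by nlinarith
      have h6 : 4 * c * (u ^ 2 + u * ξ + ξ ^ 2) ≤ 4 * c * 3 :=
        mul_le_mul_of_nonneg_left h5 (by positivity)
      have h7 : 0 ≤ 16 * (C1 + C0) := by positivity
      linarith
    · have hξ2 : 1 / 2 ≤ ξ := by linarith
      have hA : |(j u - j (u - 1)) - (j ξ - j (ξ - 1))| ≤ 2 * C1 * (u - ξ) := by
        have e : (j u - j (u - 1)) - (j ξ - j (ξ - 1)) = (j u - j ξ) - (j (u - 1) - j (ξ - 1)) := by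
          ring
        rw [e]
        have h5 := hlip ξ u h3 h4
        have h6 := hlip (ξ - 1) (u - 1) (by linarith) (by linarith)
        have h7 : |(j u - j ξ) - (j (u - 1) - j (ξ - 1))| ≤ |j u - j ξ| + |j (u - 1) - j (ξ - 1)| := by
          simpa [Real.norm_eq_abs] using norm_sub_le (j u - j ξ) (j (u - 1) - j (ξ - 1))
        have h8 : u - 1 - (ξ - 1) = u - ξ := by ring
        rw [h8] at h6
        linarith
      have hB := hN u h4
      have e : g ξ - g u = 4 * (-(((j u - j (u - 1)) - (j ξ - j (ξ - 1))) / ξ) +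
          (j u - j (u - 1)) * ((u - ξ) / (ξ * u))) := by
        rw [hg, hg]
        field_simp
        ring
      rw [e, abs_mul, abs_of_pos (by norm_num : (0 : ℝ) < 4)]
      have h5 : |-(((j u - j (u - 1)) - (j ξ - j (ξ - 1))) / ξ)| ≤ 4 * C1 * (u - ξ) := by
        rw [abs_neg, abs_div, abs_of_pos hξ, div_le_iff₀ hξ]
        refine hA.trans ?_
        have h9 : 0 ≤ C1 * (u - ξ) := mul_nonneg hC10 hd0
        nlinarith
      have h6 : |(j u - j (u - 1)) * ((u - ξ) / (ξ * u))| ≤ 4 * C0 * (u - ξ) := by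
        rw [abs_mul, abs_of_nonneg (div_nonneg hd0 (by positivity) : 0 ≤ (u - ξ) / (ξ * u))]
        have h9 : (u - ξ) / (ξ * u) ≤ 2 * (u - ξ) := by
          rw [div_le_iff₀ (by positivity)]
          have h10 : 1 / 2 ≤ ξ * u := by nlinarith
          nlinarith
        calc |j u - j (u - 1)| * ((u - ξ) / (ξ * u)) ≤ (2 * C0) * (2 * (u - ξ)) :=
              mul_le_mul hB h9 (div_nonneg hd0 (by positivity)) (by positivity)
          _ = 4 * C0 * (u - ξ) := by ring
      have h7 := abs_add_le (-(((j u - j (u - 1)) - (j ξ - j (ξ - 1))) / ξ))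
        ((j u - j (u - 1)) * ((u - ξ) / (ξ * u)))
      have h8 : 0 ≤ 12 * c * (u - ξ) := by positivity
      calc _ ≤ 4 * (4 * C1 * (u - ξ) + 4 * C0 * (u - ξ)) := by linarith
        _ ≤ L * (u - ξ) := by rw [hL]; linarith
  refine ⟨C0 + C1 + L * K1 ^ 2, by positivity, ?_, ?_, ?_⟩
  · intro u hu
    have := hC0 u (hu.trans hKK)
    have h9 : 0 ≤ L * K1 ^ 2 := by positivity
    linarith
  · intro u v hu hv
    have h9 : 0 ≤ L * K1 ^ 2 := by positivity
    have h10 : ∀ t : ℝ, 0 ≤ t → C1 * t ≤ (C0 + C1 + L * K1 ^ 2) * t := fun t ht =>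
      mul_le_mul_of_nonneg_right (by linarith) ht
    rcases le_total u v with h | h
    · rw [abs_sub_comm, abs_sub_comm u v, abs_of_nonneg (by linarith : 0 ≤ v - u)]
      exact (hlip u v h (hv.trans hKK)).trans (h10 _ (by linarith))
    · rw [abs_of_nonneg (by linarith : 0 ≤ u - v)]
      exact (hlip v u h (hu.trans hKK)).trans (h10 _ (by linarith))
  · intro u x hu huK hx hx2
    rcases eq_or_lt_of_le hx with h | h
    · rw [← h]
      simp
    · have h2 : u * (1 - x) < u := by nlinarith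
      have h3 : u / 2 ≤ u * (1 - x) := by nlinarith
      obtain ⟨ξ, h4, h5, h6⟩ := hmv (u * (1 - x)) u (by linarith) h2 (huK.trans hKK)
      have e1 : 4 * x * (j u - j (u - 1)) = x * u * g u := by
        rw [hg]
        field_simp
      have e2 : j (u * (1 - x)) - ((1 - 4 * x) * j u + 4 * x * j (u - 1)) =
          -((g ξ - g u) * (x * u)) := by
        have e3 : j (u * (1 - x)) = j u - g ξ * (u - u * (1 - x)) := by linarith
        rw [e3]
        linear_combination e1
      rw [e2, abs_neg, abs_mul, abs_of_pos (by positivity : 0 < x * u)]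
      have h7 := hgl ξ u (by linarith) (by linarith) h5.le (huK.trans hKK)
      have h8 : L * (u - ξ) ≤ L * (x * u) := mul_le_mul_of_nonneg_left (by nlinarith) hL0
      have h11 : u ^ 2 ≤ K1 ^ 2 := pow_le_pow_left₀ hu.le (huK.trans hKK) 2
      calc |g ξ - g u| * (x * u) ≤ (L * (x * u)) * (x * u) :=
            mul_le_mul_of_nonneg_right (h7.trans h8) (by positivity)
        _ = L * u ^ 2 * x ^ 2 := by ring
        _ ≤ L * K1 ^ 2 * x ^ 2 := by
            refine mul_le_mul_of_nonneg_right (mul_le_mul_of_nonneg_left h11 hL0) (by positivity)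
        _ ≤ _ := mul_le_mul_of_nonneg_right (by linarith) (by positivity)

end Pool.Agent.H17.TM
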